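import Pool.Agent.helper31.RLS.Spec

/-!
# Row DP: the normalised functions of the linear sieve (MP_ad8ced_nt)
-/

set_option autoImplicit false

namespace Pool.Agent.RLS

open Finset

private lemma DP_int {K : ℝ → ℝ} (hK : Continuous K) {c a b : ℝ} (hc : 1 < c) (ha : c ≤ a)
    (hb : c ≤ b) : IntervalIntegrable (fun t => K (t - 1) / (t - 1)) MeasureTheory.volume a b := by
  apply ContinuousOn.intervalIntegrable
  intro t ht
  have h1 : c ≤ t := (le_min ha hb).trans ht.1
  apply ContinuousAt.continuousWithinAt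
  refine ContinuousAt.div ?_ ?_ ?_
  · exact (hK.comp (continuous_id.sub continuous_const)).continuousAt
  · exact (continuous_id.sub continuous_const).continuousAt
  · linarith

private lemma DP_diff {K R : ℝ → ℝ} (hK : Continuous K) {c a b e A : ℝ} (hc : 1 < c) (ha : c ≤ a)
    (hb : c ≤ b) (h1 : R a = e + ∫ t in c..a, K (t - 1) / (t - 1))
    (h2 : R b = e + ∫ t in c..b, K (t - 1) / (t - 1)) (ha0 : a ≠ 0) (hb0 : b ≠ 0) :
    b * (A * (R b / b)) - a * (A * (R a / a)) = ∫ s in a..b, A * (K (s - 1) / (s - 1)) := by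
  rw [intervalIntegral.integral_const_mul]
  have h3 : (∫ t in c..b, K (t - 1) / (t - 1)) - ∫ t in c..a, K (t - 1) / (t - 1) =
      ∫ t in a..b, K (t - 1) / (t - 1) :=
    intervalIntegral.integral_interval_sub_left (DP_int hK hc le_rfl hb) (DP_int hK hc le_rfl ha)
  rw [← h3]
  have h4 : b * (A * (R b / b)) = A * R b := by field_simp
  have h5 : a * (A * (R a / a)) = A * R a := by field_simp
  rw [h4, h5, h1, h2]
  ring

theorem DP (h1 : DX_stmt) (h2 : DE_stmt) (h3 : DQ_stmt) (h4 : DM_stmt) : DP_stmt := by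
  intro u hu
  obtain ⟨G, H, hD⟩ := h1 u hu
  obtain ⟨hl, -, -⟩ := h2 u G H hu hD
  have hq := h3 u G H hu hD
  obtain ⟨hGa, hHm⟩ := h4 u G H hu hD
  have hGu : 1 ≤ G u := hD.g1 u
  have hGu0 : 0 < G u := by linarith
  have hu0 : 0 < u := by linarith
  set A : ℝ := u / G u with hA
  have hA0 : 0 < A := div_pos hu0 hGu0
  have hFu : A * (G u / u) = 1 := by
    rw [hA]
    field_simp
  have hF1 : ∀ s, 1 ≤ s → s ≤ u → 1 ≤ A * (G s / s) := by
    intro s hs hsu
    rw [← hFu]
    exact mul_le_mul_of_nonneg_left (hGa ⟨hs, hsu⟩ ⟨by linarith, le_rfl⟩ hsu) hA0.le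
  have hf1 : ∀ s, 2 ≤ s → s ≤ u → 0 ≤ A * (H s / s) ∧ A * (H s / s) ≤ 1 := by
    intro s hs hsu
    refine ⟨mul_nonneg hA0.le (div_nonneg (hD.h0 s) (by linarith)), ?_⟩
    have h5 : A * (H s / s) ≤ A * (H u / u) :=
      mul_le_mul_of_nonneg_left (hHm ⟨hs, hsu⟩ ⟨by linarith, le_rfl⟩ hsu) hA0.le
    have h6 : A * (H u / u) ≤ A * (G u / u) :=
      mul_le_mul_of_nonneg_left
        (div_le_div_of_nonneg_right (hq u (by linarith) le_rfl).le hu0.le) hA0.le
    linarith
  refine ⟨A, fun s => A * (G s / s), fun s => A * (H s / s), ?_⟩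
  refine ⟨?_, ?_, ?_, ?_, ?_, ?_, hF1, hf1, ?_, ?_⟩
  · have h5 := hF1 3 (by norm_num) (by linarith)
    rw [hD.g3 3 le_rfl] at h5
    linarith
  · have h5 := (hf1 4 (by norm_num) hu).2
    rw [hl 4 (by norm_num) le_rfl] at h5
    have h6 : (1 : ℝ) ≤ Real.log (4 - 1) := by
      rw [Real.le_log_iff_exp_le (by norm_num)]
      have := Real.exp_one_lt_d9
      norm_num at this ⊢
      linarith
    have h7 : A * 1 ≤ A * Real.log (4 - 1) := mul_le_mul_of_nonneg_left h6 hA0.le
    have h8 : A * (Real.log (4 - 1) / 4) = (A * Real.log (4 - 1)) / 4 := by ring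
    rw [h8, div_le_one (by norm_num : (0 : ℝ) < 4)] at h5
    rw [mul_one] at h7
    exact h7.trans h5
  · intro s hs hs3
    show A * (G s / s) = A / s
    rw [hD.g3 s hs3]
    ring
  · intro s hs hs4
    show A * (H s / s) = A * Real.log (s - 1) / s
    rw [hl s hs hs4]
    ring
  · intro x hx y hy hxy
    exact mul_le_mul_of_nonneg_left (hGa hx hy hxy) hA0.le
  · intro x hx y hy hxy
    exact mul_le_mul_of_nonneg_left (hHm hx hy hxy) hA0.le
  · intro a b ha hab hb
    exact DP_diff hD.cH (by norm_num) ha (ha.trans hab) (hD.gi a ha (hab.trans hb))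
      (hD.gi b (ha.trans hab) hb) (by linarith) (by linarith)
  · intro a b ha hab hb
    refine DP_diff (e := 0) hD.cG (by norm_num) ha (ha.trans hab) ?_ ?_ (by linarith) (by linarith)
    · rw [zero_add]
      exact hD.hi a ha (hab.trans hb)
    · rw [zero_add]
      exact hD.hi b (ha.trans hab) hb

end Pool.Agent.RLS
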